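import Mathlib
import Pool.Agent.N394.RL.Defs
import Pool.Agent.N394.RL.Main

set_option autoImplicit false

/-!
# MP_0eaff0_co: the conjectured bound for rich lines fails in every dimension `d ≥ 4`

`V` is the part of the quadric `w = y² - x z` over the box `{0, ..., N-1}³` and the rich lines are
the isotropic lines over the directions `(1, t, t²)`, `1 ≤ t ≤ T`, with `N = 2 T^8`, `r = T^6`.
-/

namespace Pool.Agent.Results.MP_0eaff0_co.FalseFromDimensionFour

open Pool.Agent.N394.RL

/-- In every dimension `d ≥ 4` no constant works in the conjectured bound; the bound fails even by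
the factor `n^(1/25)`, for arbitrarily large point sets with integer coordinates. -/
theorem result (d : ℕ) (hd : 4 ≤ d) :
    (¬ ∃ C : ℝ, ∀ (V : Finset (Fin d → ℂ)) (r : ℕ), 2 ≤ r →
      ((richLines V r).ncard : ℝ) ≤ C * bracket V r) ∧
    ∀ N : ℕ, ∃ (V : Finset (Fin d → ℂ)) (r : ℕ), N ≤ V.card ∧ 2 ≤ r ∧
      (∀ v ∈ V, ∀ i, ∃ m : ℤ, v i = (m : ℂ)) ∧ (richLines V r).Finite ∧
      (V.card : ℝ) ^ (1 / 25 : ℝ) * bracket V r ≤ ((richLines V r).ncard : ℝ) := by
  refine ⟨no_const hd, fun N => ?_⟩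
  obtain ⟨V, r, h1, h2, h3, h4⟩ := power hd N
  exact ⟨V, r, h1, h2, h3, richLines_finite V h2, h4⟩

end Pool.Agent.Results.MP_0eaff0_co.FalseFromDimensionFour
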